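import Pool.Agent.Helper69.TPF.St3

/-!
# Project TPF, module CLA: the two tuples have the same class
-/

set_option autoImplicit false

open scoped commutatorElement

namespace Pool.Agent.Helper64.TPF

open Pool.Agent.Helper6.TS Pool.Agent.Helper69.TPF

theorem mk_eq_of_mul_inv {G : Type} [Group G] (N : Subgroup G) [N.Normal] {a b : G}
    (h : a * b⁻¹ ∈ N) : (QuotientGroup.mk a : G ⧸ N) = QuotientGroup.mk b := by
  have h1 : (QuotientGroup.mk (a * b⁻¹) : G ⧸ N) = 1 := (QuotientGroup.eq_one_iff _).2 h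
  rw [QuotientGroup.mk_mul, QuotientGroup.mk_inv, mul_inv_eq_one] at h1
  exact h1

theorem rel2_mem {g : ℕ} {G : Type} [Group G] (N : Subgroup G) [N.Normal]
    (y : Fin g × Bool → G) (α x : Fin g → G) (h1 : ∀ s, y (s, false) * (α s)⁻¹ ∈ N)
    (h2 : ∀ s, y (s, true) * (x s)⁻¹ ∈ N) (h : Rel y ∈ N) : Rel2 α x ∈ N := by
  have e1 : QuotientGroup.mk' N (Rel y) = QuotientGroup.mk' N (Rel2 α x) := by
    unfold Pool.Agent.Helper69.TPF.Rel Rel2
    rw [map_list_prod, map_list_prod, List.map_map, List.map_map]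
    congr 1
    apply List.map_congr_left
    intro i _
    simp only [Function.comp_apply, map_commutatorElement]
    have a1 : QuotientGroup.mk' N (y (i, false)) = QuotientGroup.mk' N (α i) :=
      mk_eq_of_mul_inv N (h1 i)
    have a2 : QuotientGroup.mk' N (y (i, true)) = QuotientGroup.mk' N (x i) :=
      mk_eq_of_mul_inv N (h2 i)
    rw [a1, a2]
  have e2 : QuotientGroup.mk' N (Rel y) = 1 := (QuotientGroup.eq_one_iff _).2 h
  rw [e1] at e2
  exact (QuotientGroup.eq_one_iff _).1 e2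

theorem tgt_ne' {g : ℕ} {t : Fin g → Fin 3} {l : Fin 3} {s : Fin g} (h : t s ≠ l) :
    tgt t l s = 1 := by
  unfold tgt
  rw [dif_neg h]

theorem mem_Wn' {g : ℕ} {t : Fin g → Fin 3} (D : HexData g t) {n m : ℕ} (hnm : n ≤ m)
    {a k₁ k₂ : Surf g} {z0 z1 z2 : FreeGroup (Fin g)}
    (h0 : D.f0 (k₁ * k₂) = z0) (h1 : D.f1 (k₁ * k₂) = z1) (h2 : D.f2 (k₁ * k₂) = z2)
    (a0 : D.f0 a * z0⁻¹ ∈ lev (FreeGroup (Fin g)) m)
    (a1 : D.f1 a * z1⁻¹ ∈ lev (FreeGroup (Fin g)) m)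
    (a2 : D.f2 a * z2⁻¹ ∈ lev (FreeGroup (Fin g)) m) :
    (QuotientGroup.mk a : Surf g ⧸ Wn D n) = QuotientGroup.mk k₁ * QuotientGroup.mk k₂ := by
  rw [← QuotientGroup.mk_mul]
  apply mk_eq_of_mul_inv
  rw [mem_Wn]
  refine ⟨?_, ?_, ?_⟩
  · rw [map_mul, map_inv, h0]
    exact lev_anti _ hnm a0
  · rw [map_mul, map_inv, h1]
    exact lev_anti _ hnm a1
  · rw [map_mul, map_inv, h2]
    exact lev_anti _ hnm a2

theorem cCLA (del : St_DEL) (cls : St_CLS) (sig : St_SIG) : St_CLA := by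
  intro g m n B t D v α β x y α' β' x' y' X T hnm hBm hP hA hC hα2 hβ1 cα cx cβ cy hT
  obtain ⟨s1, s2, sA, sB, sC, sD, sE, sF, sG, sH⟩ := sig g n t D v hP
  obtain ⟨kα, kβ, kx, ky, hco⟩ := hC
  obtain ⟨-, hRel, hAd⟩ := hA
  intro Γ _ _ p hp hpc hcard u' u hu' hu
  symm
  -- type one
  have hty : ∀ s, t s ≠ 2 → t s = 1 := by
    intro s hs
    have h0 := D.ty s
    omega
  have hty2 : ∀ s, t s = 2 → t s ≠ 1 := by
    intro s hs
    rw [hs]
    decide
  have hty1 : ∀ s, t s = 1 → t s ≠ 2 := by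
    intro s hs
    rw [hs]
    decide
  have cly' : ∀ s, D.a21 (y' s) = tgt t 1 s := by
    intro s
    have h1 : (y s)⁻¹ * y' s ∈ D.a21.ker := Subgroup.commutator_le_left _ _ (cy s)
    rw [MonoidHom.mem_ker, map_mul, map_inv, inv_mul_eq_one] at h1
    rw [← h1, ky s]
  have clx' : ∀ s, D.a12 (x' s) = tgt t 2 s := by
    intro s
    have h1 : (x s)⁻¹ * x' s ∈ D.a12.ker := Subgroup.commutator_le_left _ _ (cx s)
    rw [MonoidHom.mem_ker, map_mul, map_inv, inv_mul_eq_one] at h1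
    rw [← h1, kx s]
  have hlev : ∀ z : FreeGroup (Fin g), z ∈ lev (FreeGroup (Fin g)) m →
      z ∈ lev (FreeGroup (Fin g)) B := fun z hz => lev_anti _ hBm hz
  refine cls g B t Γ (Surf g ⧸ Wn D n) p hp hpc hcard s1 s2 D.a12.ker D.a21.ker
    (lev (FreeGroup (Fin g)) n) (lev (FreeGroup (Fin g)) n) sA sB
    (fun ν hν y => sC ν (MonoidHom.mem_ker.1 hν) y) (fun x ν hν => sD x ν (MonoidHom.mem_ker.1 hν))
    α β x y α' β' x' y' (fun s => MonoidHom.mem_ker.2 (kα s)) (fun s => MonoidHom.mem_ker.2 (kβ s))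
    ?_ ?_ ?_ hα2 ?_ ?_ cα cx cβ cy u u' ?_ ?_ ?_ ?_
  · intro s hs
    rw [MonoidHom.mem_ker, kx s, tgt_ne' hs]
  · intro s hs
    rw [MonoidHom.mem_ker, ky s, tgt_ne' (hty2 s hs)]
  · intro s hs
    exact hβ1 s (hty s hs)
  · apply hlev
    refine rel2_mem (lev (FreeGroup (Fin g)) m) (fun i => D.f1 (X i)) α x
      (fun s => (hco s).1) (fun s => (hco s).2.2.1) ?_
    rw [← Rel_map]
    exact lev_map D.f1 hRel
  · apply hlev
    refine rel2_mem (lev (FreeGroup (Fin g)) m) (fun i => D.f2 (X i)) β y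
      (fun s => (hco s).2.1) (fun s => (hco s).2.2.2) ?_
    rw [← Rel_map]
    exact lev_map D.f2 hRel
  · intro s
    rw [hu]
    obtain ⟨k₁, a1, a2, a0⟩ := del g t D (α s) 1 1 (by rw [kα s, map_one])
      (by rw [map_one, map_one])
    obtain ⟨k₂, b1, b2, b0⟩ := del g t D 1 (β s) 1 (by rw [map_one, map_one])
      (by rw [kβ s, map_one])
    have e1 := sE k₁ a2 a0
    have e2 := sF k₂ b1 b0
    rw [a1] at e1
    rw [b2] at e2
    rw [e1, e2]
    refine mem_Wn' D hnm (z0 := 1) (z1 := α s) (z2 := β s) ?_ ?_ ?_ ?_ (hco s).1 (hco s).2.1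
    · rw [map_mul, a0, b0, one_mul]
    · rw [map_mul, a1, b1, mul_one]
    · rw [map_mul, a2, b2, one_mul]
    · rw [inv_one, mul_one]
      exact (hAd s).1
  · intro s
    rw [hu]
    by_cases hs : t s = 2
    · obtain ⟨k₁, a1, a2, a0⟩ := del g t D (x s) 1 (v s) (by rw [kx s, (hP s).2])
        (by rw [map_one, (hP s).1, tgt_ne' (hty2 s hs)])
      obtain ⟨k₂, b1, b2, b0⟩ := del g t D 1 (y s) 1 (by rw [map_one, map_one])
        (by rw [ky s, map_one, tgt_ne' (hty2 s hs)])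
      have e1 := sG k₁ s hs a2 (by rw [a1, kx s]) a0
      have e2 := sF k₂ b1 b0
      rw [a1] at e1
      rw [b2] at e2
      rw [e1, e2]
      refine mem_Wn' D hnm (z0 := v s) (z1 := x s) (z2 := y s) ?_ ?_ ?_ (hAd s).2
        (hco s).2.2.1 (hco s).2.2.2
      · rw [map_mul, a0, b0, mul_one]
      · rw [map_mul, a1, b1, mul_one]
      · rw [map_mul, a2, b2, one_mul]
    · obtain ⟨k₁, a1, a2, a0⟩ := del g t D (x s) 1 1 (by rw [kx s, map_one, tgt_ne' hs])
        (by rw [map_one, map_one])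
      obtain ⟨k₂, b1, b2, b0⟩ := del g t D 1 (y s) (v s)
        (by rw [map_one, (hP s).2, tgt_ne' hs]) (by rw [ky s, (hP s).1])
      have e1 := sE k₁ a2 a0
      have e2 := sH k₂ s (hty s hs) b1 (by rw [b2, ky s]) b0
      rw [a1] at e1
      rw [b2] at e2
      rw [e1, e2]
      refine mem_Wn' D hnm (z0 := v s) (z1 := x s) (z2 := y s) ?_ ?_ ?_ (hAd s).2
        (hco s).2.2.1 (hco s).2.2.2
      · rw [map_mul, a0, b0, one_mul]
      · rw [map_mul, a1, b1, mul_one]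
      · rw [map_mul, a2, b2, one_mul]
  · intro s hs
    obtain ⟨c1, c2, c3, c4⟩ := hT.2.1 s hs
    rw [hu', hu']
    constructor
    · rw [← c1]
      exact (sE _ c2 (hT.1 s).1).symm
    · rw [← c4]
      exact (sH _ s (hty s hs) c3 (by rw [c4]; exact cly' s) (hT.1 s).2).symm
  · intro s hs
    obtain ⟨c1, c2, c3, c4⟩ := hT.2.2 s hs
    rw [hu', hu']
    constructor
    · rw [← c2]
      exact (sF _ c1 (hT.1 s).1).symm
    · rw [← c3]
      exact (sG _ s hs c4 (by rw [c3]; exact clx' s) (hT.1 s).2).symm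

end Pool.Agent.Helper64.TPF
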