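import Pool.Agent.Helper69.TPF.St3

/-!
# Project TPF, module TGE: the tuple `T` generates
-/

set_option autoImplicit false

namespace Pool.Agent.Helper64.TPF

open Pool.Agent.Helper6.TS Pool.Agent.Helper69.TPF

/-- a section of an epimorphism onto a free group -/
theorem exists_section {G J : Type} [Group G] (a : G →* FreeGroup J)
    (ha : Function.Surjective a) : ∃ κ : FreeGroup J →* G, ∀ w, a (κ w) = w := by
  choose c hc using fun j : J => ha (FreeGroup.of j)
  refine ⟨FreeGroup.lift c, fun w => ?_⟩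
  have h : a.comp (FreeGroup.lift c) = MonoidHom.id (FreeGroup J) := by
    ext j
    simp [hc]
  exact DFunLike.congr_fun h w

theorem tgt_ne {g : ℕ} {t : Fin g → Fin 3} {l : Fin 3} {s : Fin g} (h : t s ≠ l) :
    tgt t l s = 1 := by
  unfold tgt
  rw [dif_neg h]

theorem cTGE (del : St_DEL) (tgh : St_TGH) : St_TGE := by
  intro g n t D v α' β' x' y' T hT hv hα hβ hx hy hg1 hg2
  have sa12 : Function.Surjective D.a12 := by
    intro q
    obtain ⟨z, -, hz⟩ := D.hex 1 q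
    obtain ⟨k, hk⟩ := D.s0 z
    exact ⟨D.f1 k, by rw [← D.c2, hk, hz]⟩
  have sa21 : Function.Surjective D.a21 := by
    intro p
    obtain ⟨z, hz, -⟩ := D.hex p 1
    obtain ⟨k, hk⟩ := D.s0 z
    exact ⟨D.f2 k, by rw [← D.c1, hk, hz]⟩
  obtain ⟨κ₂, hκ₂⟩ := exists_section D.a12 sa12
  obtain ⟨κ₁, hκ₁⟩ := exists_section D.a21 sa21
  apply genMod_of_le
  intro K hTK hWK
  -- first step
  have h1 : ∀ z, z ∈ K.map D.f0 := by
    intro z
    refine hv.le (K := K.map D.f0) (fun s => ?_) (fun r hr => ?_) z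
    · exact ⟨T (s, true), hTK _, (hT.1 s).2⟩
    · obtain ⟨d, hd1, hd2, hd0⟩ := del g t D (κ₂ (D.a02 r)) (κ₁ (D.a01 r)) r (hκ₂ _) (hκ₁ _)
      refine ⟨d, hWK ((mem_Wn D n).2 ⟨?_, ?_, ?_⟩), hd0⟩
      · rw [hd0]
        exact hr
      · rw [hd1]
        exact lev_map (κ₂.comp D.a02) hr
      · rw [hd2]
        exact lev_map (κ₁.comp D.a01) hr
  -- the two sides
  have h2 : ∀ k, D.a12 (D.f1 k) = 1 → D.f2 k = 1 → D.f0 k = 1 → k ∈ K := by
    refine tgh g n t 2 D.a12 (Surf g) D.f1 D.f2 D.f0 K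
      (fun s => if t s = 2 then x' s else α' s) ?_ ?_ ?_ hg1 ?_ ?_
    · intro ν hν
      obtain ⟨k, hk0, hk1, hk2⟩ := D.n1 ν hν
      exact ⟨k, hk1, hk2, hk0⟩
    · intro k hk1 hk2 hk0
      exact hWK ((mem_Wn D n).2 ⟨hk0, hk1, hk2⟩)
    · intro s
      show D.a12 (if t s = 2 then x' s else α' s) = tgt t 2 s
      split_ifs with h
      · exact hx s
      · rw [hα s, tgt_ne h]
    · intro s hs
      refine ⟨T (s, false), hTK _, ?_, (hT.2.1 s hs).2.1, (hT.1 s).1⟩
      show D.f1 (T (s, false)) = if t s = 2 then x' s else α' s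
      rw [if_neg hs]
      exact (hT.2.1 s hs).1
    · intro s hs
      refine ⟨T (s, true), hTK _, ?_, (hT.2.2 s hs).2.2.2⟩
      show D.f1 (T (s, true)) = if t s = 2 then x' s else α' s
      rw [if_pos hs]
      exact (hT.2.2 s hs).2.2.1
  have h3 : ∀ k, D.a21 (D.f2 k) = 1 → D.f1 k = 1 → D.f0 k = 1 → k ∈ K := by
    refine tgh g n t 1 D.a21 (Surf g) D.f2 D.f1 D.f0 K
      (fun s => if t s = 1 then y' s else β' s) ?_ ?_ ?_ hg2 ?_ ?_
    · intro ν hν
      obtain ⟨k, hk0, hk1, hk2⟩ := D.n2 ν hν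
      exact ⟨k, hk2, hk1, hk0⟩
    · intro k hk2 hk1 hk0
      exact hWK ((mem_Wn D n).2 ⟨hk0, hk1, hk2⟩)
    · intro s
      show D.a21 (if t s = 1 then y' s else β' s) = tgt t 1 s
      split_ifs with h
      · exact hy s
      · rw [hβ s, tgt_ne h]
    · intro s hs
      have hs2 : t s = 2 := by
        have h0 := D.ty s
        omega
      refine ⟨T (s, false), hTK _, ?_, (hT.2.2 s hs2).1, (hT.1 s).1⟩
      show D.f2 (T (s, false)) = if t s = 1 then y' s else β' s
      rw [if_neg hs]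
      exact (hT.2.2 s hs2).2.1
    · intro s hs
      have hs2 : t s ≠ 2 := by
        rw [hs]
        decide
      refine ⟨T (s, true), hTK _, ?_, (hT.2.1 s hs2).2.2.1⟩
      show D.f2 (T (s, true)) = if t s = 1 then y' s else β' s
      rw [if_pos hs]
      exact (hT.2.1 s hs2).2.2.2
  -- second step
  have h4 : ∀ k, D.f0 k = 1 → k ∈ K := by
    intro k hk
    have e1 : D.a12 (D.f1 k) = 1 := by rw [← D.c2, hk, map_one]
    have e2 : D.a21 (D.f2 k) = 1 := by rw [← D.c1, hk, map_one]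
    obtain ⟨k₁, a1, a2, a0⟩ := del g t D (D.f1 k) 1 1 (by rw [e1, map_one])
      (by rw [map_one, map_one])
    obtain ⟨k₂, b1, b2, b0⟩ := del g t D 1 (D.f2 k) 1 (by rw [map_one, map_one])
      (by rw [e2, map_one])
    have m1 : k₁ ∈ K := h2 k₁ (by rw [a1, e1]) a2 a0
    have m2 : k₂ ∈ K := h3 k₂ (by rw [b2, e2]) b1 b0
    have m3 : (k₁ * k₂)⁻¹ * k ∈ K := by
      apply hWK
      rw [mem_Wn]
      refine ⟨?_, ?_, ?_⟩
      · rw [map_mul, map_inv, map_mul, a0, b0, hk, mul_one, mul_one, inv_one]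
        exact one_mem _
      · rw [map_mul, map_inv, map_mul, a1, b1, mul_one, inv_mul_cancel]
        exact one_mem _
      · rw [map_mul, map_inv, map_mul, a2, b2, one_mul, inv_mul_cancel]
        exact one_mem _
    have m4 := K.mul_mem (K.mul_mem m1 m2) m3
    rwa [mul_inv_cancel_left] at m4
  rw [Subgroup.eq_top_iff']
  intro k
  obtain ⟨k', hk', hk0⟩ := h1 (D.f0 k)
  have h5 : k'⁻¹ * k ∈ K := h4 _ (by rw [map_mul, map_inv, hk0, inv_mul_cancel])
  have h6 := K.mul_mem hk' h5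
  rwa [mul_inv_cancel_left] at h6

end Pool.Agent.Helper64.TPF
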